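import Pool.Agent.Helper54.BF.Inst
import Pool.Agent.Helper65.BF.Bes

set_option autoImplicit false

/-! The frame theorem for the Bessel extension: real and integer certificates. -/

noncomputable section

namespace Pool.Agent.Helper54.BF

open MeasureTheory Complex SchwartzMap
open Pool.Agent.Helper65.BF (Ext)
open scoped ContDiff SchwartzMap ENNReal

/-- FRAME THEOREM for the Bessel extension of parameter `s > 1`, real coefficients -/
theorem frameB (s : ℝ) (hs : 1 < s) (n : ℕ) (U M : Fm ℝ Jb) (A B C : ℝ)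
    (hR : ∀ X : Jb → ℂ, 0 ≤ ev (body (Db s) urb ulb U M) X)
    (hM : ∀ X : Jb → ℂ, (∀ j : Jb, j.1 ≠ 0 ∨ j.2.2 = true → X j = 0) →
      ev U X + B * ‖X (0, 2 * (n : ℤ), false)‖ ^ 4 ≤ A * ‖X (0, 0, false)‖ ^ 4)
    (hB : 0 < B) (hC : 0 ≤ C) (hA : A ≤ B * C ^ 4) (f : 𝓢(ℂ, ℂ)) :
    eLpNorm
        (fun z : ℂ => ∫ ξ : ℂ,
          Complex.exp (2 * (Real.pi : ℂ) * Complex.I * ((z.re * ξ.re + z.im * ξ.im : ℝ) : ℂ)) *
            ((starRingEnd ℂ ξ / ξ) ^ n *
              ∫ w : ℂ, Complex.exp (-(2 * (Real.pi : ℂ) * Complex.I *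
                ((w.re * ξ.re + w.im * ξ.im : ℝ) : ℂ))) * f w))
        (ENNReal.ofReal 4) MeasureTheory.volume
      ≤ ENNReal.ofReal C *
        MeasureTheory.eLpNorm (fun z : ℂ => f z) (ENNReal.ofReal 4) MeasureTheory.volume := by
  refine frameT (sysB (Pool.Agent.Helper65.BF.ext_exists s hs)) n
    (fun j => j.1 ≠ 0 ∨ j.2.2 = true) ?_ (0, 0, false) (0, 2 * (n : ℤ), false) ?_ ?_ U M A B C
    hR hM hB hC hA f
  · intro j hj ξ _
    show Sb0 j ξ = 0
    rw [Sb0, if_neg]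
    rintro ⟨h1, h2⟩
    rcases hj with hj | hj
    · exact hj h1
    · rw [h2] at hj
      exact Bool.false_ne_true hj
  · intro ξ _
    show Sb0 (0, 0, false) ξ = 1
    simp [Sb0]
  · intro ξ _
    show Sb0 (0, 2 * (n : ℤ), false) ξ = _
    simp [Sb0]

/-! ### integer certificates -/

lemma ev_append {J : Type} (L L' : Fm ℝ J) (X : J → ℂ) : ev (L ++ L') X = ev L X + ev L' X := by
  simp [ev]

lemma ev_sc {J : Type} (a : ℝ) (L : Fm ℝ J) (X : J → ℂ) : ev (sc a L) X = a * ev L X := by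
  induction L with
  | nil => simp [sc, ev]
  | cons c L ih =>
    have : sc a (c :: L) = (a * c.1, c.2) :: sc a L := rfl
    rw [this, ev_cons, ev_cons, ih]
    ring

lemma rl_append {J : Type} (L L' : Fm ℤ J) : rl (L ++ L') = rl L ++ rl L' := by
  simp [rl]

lemma rl_sc {J : Type} (a : ℤ) (L : Fm ℤ J) : rl (sc a L) = sc (a : ℝ) (rl L) := by
  simp [rl, sc, Function.comp_def]

lemma rl_apZ {J : Type} (ur ul : J → J) (L : Fm ℤ J) : rl (apZ ur ul L) = apZ ur ul (rl L) := by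
  induction L with
  | nil => rfl
  | cons c L ih =>
    have e1 : apZ ur ul (c :: L) = dz ur ul c ++ apZ ur ul L := rfl
    have e2 : apZ ur ul (rl (c :: L)) = dz ur ul ((c.1 : ℝ), c.2) ++ apZ ur ul (rl L) := rfl
    rw [e1, e2, rl_append, ih]
    congr 1
    simp [rl, dz]

lemma apZ_sc {J : Type} (ur ul : J → J) (a : ℝ) (L : Fm ℝ J) :
    apZ ur ul (sc a L) = sc a (apZ ur ul L) := by
  induction L with
  | nil => rfl
  | cons c L ih =>
    have e1 : apZ ur ul (sc a (c :: L)) = dz ur ul (a * c.1, c.2) ++ apZ ur ul (sc a L) := rfl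
    have e2 : sc a (apZ ur ul (c :: L)) = sc a (dz ur ul c) ++ sc a (apZ ur ul L) := by
      simp [sc, apZ]
    rw [e1, e2, ih]
    congr 1
    simp [sc, dz]

/-- `Db4` is `4 Db` -/
lemma ev_apD4 (s4 : ℤ) (L : Fm ℤ Jb) (X : Jb → ℂ) :
    ev (rl (apD (Db4 s4) L)) X = 4 * ev (apD (Db ((s4 : ℝ) / 4)) (rl L)) X := by
  induction L with
  | nil => simp [apD, rl, ev]
  | cons c L ih =>
    have e1 : apD (Db4 s4) (c :: L) = der1 (Db4 s4) c ++ apD (Db4 s4) L := rfl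
    have e2 : apD (Db ((s4 : ℝ) / 4)) (rl (c :: L)) =
        der1 (Db ((s4 : ℝ) / 4)) ((c.1 : ℝ), c.2) ++ apD (Db ((s4 : ℝ) / 4)) (rl L) := rfl
    rw [e1, e2, rl_append, ev_append, ev_append, ih, mul_add]
    congr 1
    have key : ∀ (j : Jb) (g : Jb → Q4 Jb),
        ev (rl ((Db4 s4 j).map fun a => (c.1 * a.1, g a.2))) X =
          4 * ev ((Db ((s4 : ℝ) / 4) j).map fun a => (((c.1 : ℝ)) * a.1, g a.2)) X := by
      intro j g
      obtain ⟨d, k, e⟩ := j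
      cases e <;>
      · simp only [Db4, Db, rl, ev, List.map_cons, List.map_nil, List.sum_cons, List.sum_nil]
        push_cast
        ring
    simp only [der1, rl_append, ev_append]
    rw [key c.2.1 fun j => (j, c.2.2.1, c.2.2.2.1, c.2.2.2.2),
      key c.2.2.1 fun j => (c.2.1, j, c.2.2.2.1, c.2.2.2.2),
      key c.2.2.2.1 fun j => (c.2.1, c.2.2.1, j, c.2.2.2.2),
      key c.2.2.2.2 fun j => (c.2.1, c.2.2.1, c.2.2.2.1, j)]
    ring

/-- FRAME THEOREM for the Bessel extension, integer certificate, `4 s = s4` -/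
theorem frameZ (s4 : ℤ) (hs : 4 < s4) (n : ℕ) (U M : Fm ℤ Jb) (A B C : ℝ)
    (hR : ∀ X : Jb → ℂ, 0 ≤ ev (rl (body (Db4 s4) urb ulb U M)) X)
    (hM : ∀ X : Jb → ℂ, (∀ j : Jb, j.1 ≠ 0 ∨ j.2.2 = true → X j = 0) →
      ev (rl U) X + B * ‖X (0, 2 * (n : ℤ), false)‖ ^ 4 ≤ A * ‖X (0, 0, false)‖ ^ 4)
    (hB : 0 < B) (hC : 0 ≤ C) (hA : A ≤ B * C ^ 4) (f : 𝓢(ℂ, ℂ)) :
    eLpNorm
        (fun z : ℂ => ∫ ξ : ℂ,
          Complex.exp (2 * (Real.pi : ℂ) * Complex.I * ((z.re * ξ.re + z.im * ξ.im : ℝ) : ℂ)) *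
            ((starRingEnd ℂ ξ / ξ) ^ n *
              ∫ w : ℂ, Complex.exp (-(2 * (Real.pi : ℂ) * Complex.I *
                ((w.re * ξ.re + w.im * ξ.im : ℝ) : ℂ))) * f w))
        (ENNReal.ofReal 4) MeasureTheory.volume
      ≤ ENNReal.ofReal C *
        MeasureTheory.eLpNorm (fun z : ℂ => f z) (ENNReal.ofReal 4) MeasureTheory.volume := by
  have hs' : (1 : ℝ) < (s4 : ℝ) / 4 := by
    have : (4 : ℝ) < (s4 : ℝ) := by exact_mod_cast hs
    linarith
  refine frameB ((s4 : ℝ) / 4) hs' n (rl U) (sc (1 / 4) (rl M)) A B C (fun X => ?_) hM hB hC hA f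
  have h1 := hR X
  rw [body, rl_append, rl_sc, rl_apZ, ev_append, ev_sc, ev_apD4] at h1
  rw [body, ev_append, ev_sc, apZ_sc, ev_sc]
  push_cast at h1
  linarith

end Pool.Agent.Helper54.BF
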