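import Mathlib

set_option autoImplicit false

/-! Quartic forms over an abstract type of jets: combinatorial definitions. -/

namespace Pool.Agent.Helper54.BF

/-- index of a quartic monomial `X_a X_b conj(X_c) conj(X_d)` -/
abbrev Q4 (J : Type) : Type := J × J × J × J

/-- a form with coefficients in `R` -/
abbrev Fm (R J : Type) : Type := List (R × Q4 J)

section

variable {R J : Type} [Ring R]

/-- multiply by a constant -/
def sc (a : R) (L : Fm R J) : Fm R J := L.map fun c => (a * c.1, c.2)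

/-- the derivation `D` applied to one term -/
def der1 (D : J → List (R × J)) (c : R × Q4 J) : Fm R J :=
  ((D c.2.1).map fun a => (c.1 * a.1, (a.2, c.2.2.1, c.2.2.2.1, c.2.2.2.2))) ++
  ((D c.2.2.1).map fun a => (c.1 * a.1, (c.2.1, a.2, c.2.2.2.1, c.2.2.2.2))) ++
  ((D c.2.2.2.1).map fun a => (c.1 * a.1, (c.2.1, c.2.2.1, a.2, c.2.2.2.2))) ++
  ((D c.2.2.2.2).map fun a => (c.1 * a.1, (c.2.1, c.2.2.1, c.2.2.2.1, a.2)))

/-- the derivation `D` applied to a form -/
def apD (D : J → List (R × J)) (L : Fm R J) : Fm R J := L.flatMap (der1 D)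

/-- the divergence of one term -/
def dz (ur ul : J → J) (c : R × Q4 J) : Fm R J :=
  [(c.1, (ur c.2.1, c.2.2.1, c.2.2.2.1, c.2.2.2.2)), (c.1, (c.2.1, ur c.2.2.1, c.2.2.2.1, c.2.2.2.2)),
   (-c.1, (c.2.1, c.2.2.1, ul c.2.2.2.1, c.2.2.2.2)), (-c.1, (c.2.1, c.2.2.1, c.2.2.2.1, ul c.2.2.2.2))]

/-- the divergence of a form -/
def apZ (ur ul : J → J) (L : Fm R J) : Fm R J := L.flatMap (dz ur ul)

/-- the dissipation -/
def body (D : J → List (R × J)) (ur ul : J → J) (U M : Fm R J) : Fm R J :=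
  sc (-1) (apD D U) ++ apZ ur ul M

end

/-- value of a monomial at a jet -/
noncomputable def mono {J : Type} (q : Q4 J) (X : J → ℂ) : ℂ :=
  X q.1 * X q.2.1 * starRingEnd ℂ (X q.2.2.1) * starRingEnd ℂ (X q.2.2.2)

/-- value of a form at a jet -/
noncomputable def ev {J : Type} (L : Fm ℝ J) (X : J → ℂ) : ℝ :=
  (L.map fun c => c.1 * (mono c.2 X).re).sum

/-- an integer form as a real form -/
def rl {J : Type} (L : Fm ℤ J) : Fm ℝ J := L.map fun c => ((c.1 : ℝ), c.2)

/-! ### the jets of the Bessel extension -/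

/-- jet index `(d, k, e)`: symbol `(-(t r))^d u^k phi(t r)` (`e = false`) or
`(-(t r))^d u^k psi(t r)` (`e = true`), `psi(r) = r phi'(r)`, `r psi' = 2 s psi + r^2 phi` -/
abbrev Jb : Type := ℕ × ℤ × Bool

def urb (p : Jb) : Jb := (p.1 + 1, p.2.1 + 1, p.2.2)
def ulb (p : Jb) : Jb := (p.1 + 1, p.2.1 - 1, p.2.2)

/-- `t d/dt`, real coefficients -/
noncomputable def Db (s : ℝ) (p : Jb) : List (ℝ × Jb) :=
  match p with
  | (d, k, false) => [((d : ℝ), (d, k, false)), (1, (d, k, true))]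
  | (d, k, true) => [((d : ℝ) + 2 * s, (d, k, true)), (1, (d + 2, k, false))]

/-- `4 t d/dt`, integer coefficients, `s4 = 4 s` -/
def Db4 (s4 : ℤ) (p : Jb) : List (ℤ × Jb) :=
  match p with
  | (d, k, false) => [(4 * (d : ℤ), (d, k, false)), (4, (d, k, true))]
  | (d, k, true) => [(4 * (d : ℤ) + 2 * s4, (d, k, true)), (4, (d + 2, k, false))]

end Pool.Agent.Helper54.BF
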