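import Pool.Agent.Helper54.BF.Sys
import Pool.Agent.Helper65.BF.Ext

set_option autoImplicit false

/-! The frame for the Bessel (Caffarelli-Silvestre) extension. -/

noncomputable section

namespace Pool.Agent.Helper54.BF

open MeasureTheory Set Filter Topology Complex FourierTransform SchwartzMap
open Pool.Agent.Helper54.PF (SO Cut un SO_un_zpow SO_norm norm_un norm_un_mul conj_un un_ne cut_ne)
open Pool.Agent.Helper65.BF (Ext)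
open scoped ContDiff SchwartzMap LineDeriv ENNReal

/-- the profile -/
def pr (ph ps : ℝ → ℝ) : Bool → ℝ → ℝ
  | false => ph
  | true => ps

/-- the symbol of a jet at height `t` -/
def Sb (ph ps : ℝ → ℝ) (j : Jb) (t : ℝ) (ξ : ℂ) : ℂ :=
  (-((t : ℂ) * (‖ξ‖ : ℂ))) ^ j.1 * un ξ ^ j.2.1 * ((pr ph ps j.2.2 (t * ‖ξ‖) : ℝ) : ℂ)

/-- the symbol of a jet at height `0` -/
def Sb0 (j : Jb) (ξ : ℂ) : ℂ := if j.1 = 0 ∧ j.2.2 = false then un ξ ^ j.2.1 else 0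

variable {s : ℝ} {ph ps : ℝ → ℝ} (E : Ext s ph ps)

include E

lemma SO_pr (e : Bool) {t : ℝ} (ht : 0 < t) : SO fun ξ => ((pr ph ps e (t * ‖ξ‖) : ℝ) : ℂ) := by
  intro ξ hξ
  have hr : 0 < t * ‖ξ‖ := mul_pos ht (norm_pos_iff.2 hξ)
  have h1 : ContDiffAt ℝ ∞ (fun ξ : ℂ => t * ‖ξ‖) ξ := contDiffAt_const.mul (contDiffAt_norm ℝ hξ)
  have h2 : ContDiffAt ℝ ∞ (pr ph ps e) (t * ‖ξ‖) := by
    cases e
    · exact E.s0.contDiffAt (Ioi_mem_nhds hr)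
    · exact E.s1.contDiffAt (Ioi_mem_nhds hr)
  exact Complex.ofRealCLM.contDiff.contDiffAt.comp ξ (h2.comp ξ h1)

lemma SO_Sb (j : Jb) (t : ℝ) (ht : 0 < t) : SO (Sb ph ps j t) := by
  have h1 : SO (fun ξ => -((t : ℂ) * (‖ξ‖ : ℂ))) :=
    fun ξ hξ => (contDiffAt_const.mul (SO_norm ξ hξ)).neg
  exact ((h1.pow j.1).mul (SO_un_zpow j.2.1)).mul (SO_pr E j.2.2 ht)

omit E in
lemma SO_Sb0 (j : Jb) : SO (Sb0 j) := by
  by_cases hj : j.1 = 0 ∧ j.2.2 = false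
  · have e : Sb0 j = fun ξ => un ξ ^ j.2.1 := by
      funext ξ
      rw [Sb0, if_pos hj]
    rw [e]
    exact SO_un_zpow _
  · have e : Sb0 j = fun _ => 0 := by
      funext ξ
      rw [Sb0, if_neg hj]
    rw [e]
    exact fun ξ _ => contDiffAt_const

lemma der_Sb (j : Jb) (ξ : ℂ) (hξ : ξ ≠ 0) (t : ℝ) (ht : 0 < t) :
    HasDerivAt (fun t : ℝ => Sb ph ps j t ξ)
      (((Db s j).map fun a => (a.1 : ℂ) * Sb ph ps a.2 t ξ).sum / (t : ℂ)) t := by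
  have hn : 0 < ‖ξ‖ := norm_pos_iff.2 hξ
  have hr : 0 < t * ‖ξ‖ := mul_pos ht hn
  have htc : (t : ℂ) ≠ 0 := by exact_mod_cast ht.ne'
  have hnc : (‖ξ‖ : ℂ) ≠ 0 := by exact_mod_cast hn.ne'
  obtain ⟨d, k, e⟩ := j
  have hlin : HasDerivAt (fun t : ℝ => t * ‖ξ‖) ‖ξ‖ t := by
    simpa using (hasDerivAt_id t).mul_const ‖ξ‖
  have h1 : HasDerivAt (fun t : ℝ => -((t : ℂ) * (‖ξ‖ : ℂ))) (-(‖ξ‖ : ℂ)) t := by
    have := (hlin.ofReal_comp).neg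
    refine this.congr_of_eventuallyEq (Eventually.of_forall fun t => ?_)
    push_cast
    rfl
  have h2 : HasDerivAt (fun t : ℝ => (-((t : ℂ) * (‖ξ‖ : ℂ))) ^ d)
      ((d : ℂ) * (-((t : ℂ) * (‖ξ‖ : ℂ))) ^ d / (t : ℂ)) t := by
    refine (h1.pow d).congr_deriv ?_
    rcases Nat.eq_zero_or_pos d with rfl | hd
    · simp
    · obtain ⟨m, rfl⟩ := Nat.exists_eq_succ_of_ne_zero hd.ne'
      simp only [Nat.succ_eq_add_one, Nat.add_sub_cancel, pow_succ]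
      field_simp
  cases e with
  | false =>
    have h3 : HasDerivAt (fun t : ℝ => ((ph (t * ‖ξ‖) : ℝ) : ℂ)) ((ps (t * ‖ξ‖) : ℂ) / (t : ℂ)) t := by
      have h4 := ((E.d0 _ hr).comp t hlin).ofReal_comp
      refine h4.congr_deriv ?_
      push_cast
      field_simp
    have h5 := (h2.mul_const (un ξ ^ k)).mul h3
    refine h5.congr_deriv ?_
    simp only [Db, Sb, pr, List.map_cons, List.map_nil, List.sum_cons, List.sum_nil]
    push_cast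
    field_simp
    ring
  | true =>
    have h3 : HasDerivAt (fun t : ℝ => ((ps (t * ‖ξ‖) : ℝ) : ℂ))
        ((2 * (s : ℂ) * (ps (t * ‖ξ‖) : ℂ) + ((t : ℂ) * (‖ξ‖ : ℂ)) ^ 2 * (ph (t * ‖ξ‖) : ℂ)) / (t : ℂ)) t := by
      have h4 := ((E.d1 _ hr).comp t hlin).ofReal_comp
      refine h4.congr_deriv ?_
      push_cast
      field_simp
    have h5 := (h2.mul_const (un ξ ^ k)).mul h3
    refine h5.congr_deriv ?_
    simp only [Db, Sb, pr, List.map_cons, List.map_nil, List.sum_cons, List.sum_nil]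
    push_cast
    field_simp
    ring

lemma lim_Sb (j : Jb) (ξ : ℂ) (_hξ : ξ ≠ 0) :
    Tendsto (fun t : ℝ => Sb ph ps j t ξ) (𝓝[>] 0) (𝓝 (Sb0 j ξ)) := by
  obtain ⟨d, k, e⟩ := j
  have hlin : Tendsto (fun t : ℝ => t * ‖ξ‖) (𝓝[>] 0) (𝓝[≥] 0) := by
    refine tendsto_nhdsWithin_iff.2 ⟨?_, ?_⟩
    · have : Tendsto (fun t : ℝ => t * ‖ξ‖) (𝓝 0) (𝓝 (0 * ‖ξ‖)) := tendsto_id.mul_const _
      rw [zero_mul] at this
      exact this.mono_left nhdsWithin_le_nhds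
    · filter_upwards [self_mem_nhdsWithin] with t ht
      exact mul_nonneg (le_of_lt ht) (norm_nonneg _)
  have h1 : Tendsto (fun t : ℝ => (-((t : ℂ) * (‖ξ‖ : ℂ))) ^ d) (𝓝[>] 0) (𝓝 (0 ^ d)) := by
    have h2 : Tendsto (fun t : ℝ => -((t : ℂ) * (‖ξ‖ : ℂ))) (𝓝 0) (𝓝 (-(((0 : ℝ) : ℂ) * (‖ξ‖ : ℂ)))) :=
      ((Complex.continuous_ofReal.tendsto 0).mul_const _).neg
    rw [Complex.ofReal_zero, zero_mul, neg_zero] at h2
    exact (h2.mono_left nhdsWithin_le_nhds).pow d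
  have h3 : Tendsto (fun t : ℝ => ((pr ph ps e (t * ‖ξ‖) : ℝ) : ℂ)) (𝓝[>] 0)
      (𝓝 (if e = false then 1 else 0)) := by
    cases e with
    | false =>
      have h4 := (E.c0 0 (mem_Ici.2 le_rfl)).tendsto.comp hlin
      rw [E.z0] at h4
      have h5 := (Complex.continuous_ofReal.tendsto _).comp h4
      simpa [pr, Function.comp_def] using h5
    | true =>
      have h4 := (E.c1 0 (mem_Ici.2 le_rfl)).tendsto.comp hlin
      rw [E.z1] at h4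
      have h5 := (Complex.continuous_ofReal.tendsto _).comp h4
      simpa [pr, Function.comp_def] using h5
  have h6 := (h1.mul_const (un ξ ^ k)).mul h3
  have e0 : (0 : ℂ) ^ d * un ξ ^ k * (if e = false then 1 else 0) = Sb0 (d, k, e) ξ := by
    rcases Nat.eq_zero_or_pos d with rfl | hd
    · cases e <;> simp [Sb0]
    · simp [Sb0, hd.ne']
  rw [e0] at h6
  exact h6

lemma bd_Sb (χ : ℂ → ℂ) (h : Cut χ) (j : Jb) : ∃ C δ : ℝ, 0 < δ ∧ ∀ t, 0 < t → ∀ ξ,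
    ‖χ ξ * Sb ph ps j t ξ‖ ≤ C * Real.exp (-(δ * t)) := by
  obtain ⟨d, k, e⟩ := j
  obtain ⟨C, hC0, hC⟩ := E.dec
  obtain ⟨δ, hδ, hg⟩ := h.gap
  obtain ⟨K, hK⟩ : ∃ K : ℝ, ∀ ξ, ‖χ ξ‖ ≤ K := by
    obtain ⟨K, hK⟩ := h.cpt.exists_bound_of_continuous h.smooth.continuous
    exact ⟨K, hK⟩
  have hK0 : 0 ≤ K := (norm_nonneg _).trans (hK 0)
  refine ⟨K * (4 ^ d * (d.factorial : ℝ)) * C, δ / 4, by positivity, fun t ht ξ => ?_⟩
  by_cases hχ : χ ξ = 0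
  · rw [hχ, zero_mul, norm_zero]
    positivity
  have hξ : ξ ≠ 0 := cut_ne h hχ
  have hr : 0 ≤ t * ‖ξ‖ := by positivity
  have h1 : ‖((pr ph ps e (t * ‖ξ‖) : ℝ) : ℂ)‖ ≤ C * Real.exp (-(t * ‖ξ‖ / 2)) := by
    rw [Complex.norm_real, Real.norm_eq_abs]
    cases e
    · exact (hC _ hr).1
    · exact (hC _ hr).2
  have h2 : ‖(-((t : ℂ) * (‖ξ‖ : ℂ))) ^ d‖ = (t * ‖ξ‖) ^ d := by
    rw [norm_pow, norm_neg, norm_mul, Complex.norm_real, Complex.norm_real, Real.norm_eq_abs,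
      Real.norm_eq_abs, abs_of_pos ht, abs_of_nonneg (norm_nonneg _)]
  have h3 : ‖un ξ ^ k‖ = 1 := by
    rw [norm_zpow, norm_un hξ, one_zpow]
  have h4 : (t * ‖ξ‖) ^ d ≤ 4 ^ d * (d.factorial : ℝ) * Real.exp (t * ‖ξ‖ / 4) := by
    have h5 := Real.pow_div_factorial_le_exp (t * ‖ξ‖ / 4) (by positivity) d
    have hf : (0 : ℝ) < (d.factorial : ℝ) := by exact_mod_cast d.factorial_pos
    rw [div_le_iff₀ hf, div_pow, div_le_iff₀ (by positivity)] at h5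
    linarith
  have h6 : Real.exp (-(t * ‖ξ‖ / 2)) = Real.exp (-(t * ‖ξ‖ / 4)) * Real.exp (-(t * ‖ξ‖ / 4)) := by
    rw [← Real.exp_add]
    congr 1
    ring
  have h7 : Real.exp (t * ‖ξ‖ / 4) * Real.exp (-(t * ‖ξ‖ / 4)) = 1 := by
    rw [← Real.exp_add]
    simp
  have h8 : Real.exp (-(t * ‖ξ‖ / 4)) ≤ Real.exp (-(δ / 4 * t)) := by
    apply Real.exp_le_exp.2
    have := mul_le_mul_of_nonneg_left (hg ξ hχ) ht.le
    linarith
  show ‖χ ξ * ((-((t : ℂ) * (‖ξ‖ : ℂ))) ^ d * un ξ ^ k * ((pr ph ps e (t * ‖ξ‖) : ℝ) : ℂ))‖ ≤ _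
  rw [norm_mul, norm_mul, norm_mul, h2, h3, mul_one]
  calc ‖χ ξ‖ * ((t * ‖ξ‖) ^ d * ‖((pr ph ps e (t * ‖ξ‖) : ℝ) : ℂ)‖)
      ≤ K * ((4 ^ d * (d.factorial : ℝ) * Real.exp (t * ‖ξ‖ / 4)) *
          (C * Real.exp (-(t * ‖ξ‖ / 2)))) := by
        refine mul_le_mul (hK ξ) ?_ (by positivity) hK0
        exact mul_le_mul h4 h1 (norm_nonneg _) (by positivity)
    _ = K * (4 ^ d * (d.factorial : ℝ)) * C *
          (Real.exp (t * ‖ξ‖ / 4) * Real.exp (-(t * ‖ξ‖ / 4)) * Real.exp (-(t * ‖ξ‖ / 4))) := by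
        rw [h6]
        ring
    _ = K * (4 ^ d * (d.factorial : ℝ)) * C * Real.exp (-(t * ‖ξ‖ / 4)) := by
        rw [h7, one_mul]
    _ ≤ K * (4 ^ d * (d.factorial : ℝ)) * C * Real.exp (-(δ / 4 * t)) :=
        mul_le_mul_of_nonneg_left h8 (by positivity)

omit E in
lemma hur_Sb (j : Jb) (t : ℝ) (ξ : ℂ) (_ht : 0 < t) (hξ : ξ ≠ 0) :
    Sb ph ps (urb j) t ξ = ((t : ℂ) * (I * starRingEnd ℂ ξ)) * Sb ph ps j t ξ := by
  have e := norm_un_mul ξ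
  have e1 : un ξ ^ (j.2.1 + 1) = un ξ ^ j.2.1 * un ξ := zpow_add_one₀ (un_ne hξ) _
  simp only [Sb, urb, pow_succ, e1]
  linear_combination (-(-((t : ℂ) * (‖ξ‖ : ℂ))) ^ j.1 * un ξ ^ j.2.1 *
    ((pr ph ps j.2.2 (t * ‖ξ‖) : ℝ) : ℂ) * t) * e

omit E in
lemma hul_Sb (j : Jb) (t : ℝ) (ξ : ℂ) (_ht : 0 < t) (hξ : ξ ≠ 0) :
    starRingEnd ℂ (Sb ph ps (ulb j) t ξ) =
      ((t : ℂ) * (I * starRingEnd ℂ ξ)) * starRingEnd ℂ (Sb ph ps j t ξ) := by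
  have e := norm_un_mul ξ
  have e1 : un ξ ^ (j.2.1 - 1) = un ξ ^ j.2.1 * (un ξ)⁻¹ := zpow_sub_one₀ (un_ne hξ) _
  simp only [Sb, ulb, pow_succ, e1, map_mul, map_pow, map_neg, map_inv₀, conj_un hξ, inv_inv,
    Complex.conj_ofReal]
  linear_combination (-(-((t : ℂ) * (‖ξ‖ : ℂ))) ^ j.1 * starRingEnd ℂ (un ξ ^ j.2.1) *
    ((pr ph ps j.2.2 (t * ‖ξ‖) : ℝ) : ℂ) * t) * e

/-- the system of jets of the Bessel extension -/
def sysB : Sys Jb where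
  S := Sb ph ps
  S0 := Sb0
  D := Db s
  ur := urb
  ul := ulb
  smooth := SO_Sb E
  smooth0 := SO_Sb0
  der := der_Sb E
  lim := lim_Sb E
  bd := bd_Sb E
  hur := hur_Sb
  hul := hul_Sb

end Pool.Agent.Helper54.BF
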