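import Pool.Agent.Helper54.PF.Den
import Pool.Agent.Helper54.BF.Form

set_option autoImplicit false

/-! The frame for an abstract system of jets. -/

noncomputable section

namespace Pool.Agent.Helper54.BF

open MeasureTheory Set Filter Topology Complex FourierTransform SchwartzMap
open Pool.Agent.Helper68.BA
open Pool.Agent.Helper54.JET (C3 x4 Om integrable_quart four_bound integrable_sg sg)
open Pool.Agent.Helper54.PF (SO Cut Sf OO OO_eq OO_ne cut_ne integrable_sym phys integrable_four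
  toFrozen WW fourier_Sf)
open scoped ContDiff SchwartzMap LineDeriv ENNReal

/-- a system of jets: symbols `S j t ξ`, `t d/dt` acts by the derivation `D`, `ur`, `ul` are the
effect of `2 t d/dz` -/
structure Sys (J : Type) where
  S : J → ℝ → ℂ → ℂ
  S0 : J → ℂ → ℂ
  D : J → List (ℝ × J)
  ur : J → J
  ul : J → J
  smooth : ∀ j t, 0 < t → SO (S j t)
  smooth0 : ∀ j, SO (S0 j)
  der : ∀ j ξ, ξ ≠ 0 → ∀ t : ℝ, 0 < t → HasDerivAt (fun t : ℝ => S j t ξ)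
    (((D j).map fun a => (a.1 : ℂ) * S a.2 t ξ).sum / (t : ℂ)) t
  lim : ∀ j ξ, ξ ≠ 0 → Tendsto (fun t : ℝ => S j t ξ) (𝓝[>] 0) (𝓝 (S0 j ξ))
  bd : ∀ χ, Cut χ → ∀ j, ∃ C δ : ℝ, 0 < δ ∧ ∀ t, 0 < t → ∀ ξ, ‖χ ξ * S j t ξ‖ ≤ C * Real.exp (-(δ * t))
  hur : ∀ j t ξ, 0 < t → ξ ≠ 0 → S (ur j) t ξ = ((t : ℂ) * (I * starRingEnd ℂ ξ)) * S j t ξ
  hul : ∀ j t ξ, 0 < t → ξ ≠ 0 → starRingEnd ℂ (S (ul j) t ξ) =
    ((t : ℂ) * (I * starRingEnd ℂ ξ)) * starRingEnd ℂ (S j t ξ)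

variable {J : Type}

/-! ### algebra of forms -/

lemma ev_nil (X : J → ℂ) : ev [] X = 0 := rfl

lemma ev_cons (c : ℝ × Q4 J) (L : Fm ℝ J) (X : J → ℂ) :
    ev (c :: L) X = c.1 * (mono c.2 X).re + ev L X := by
  simp [ev]

variable (Y : Sys J)

/-- the symbol of a monomial -/
def Sg (q : Q4 J) (t : ℝ) (ξ : C3) : ℂ :=
  Y.S q.1 t ξ.1 * Y.S q.2.1 t ξ.2.1 * starRingEnd ℂ (Y.S q.2.2.1 t ξ.2.2) *
    starRingEnd ℂ (Y.S q.2.2.2 t (x4 ξ))

/-- the symbol of a monomial at height `0` -/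
def Sg0 (q : Q4 J) (ξ : C3) : ℂ :=
  Y.S0 q.1 ξ.1 * Y.S0 q.2.1 ξ.2.1 * starRingEnd ℂ (Y.S0 q.2.2.1 ξ.2.2) *
    starRingEnd ℂ (Y.S0 q.2.2.2 (x4 ξ))

/-- the symbol of a form -/
def SgR (L : Fm ℝ J) (t : ℝ) (ξ : C3) : ℂ := (L.map fun a => (a.1 : ℂ) * Sg Y a.2 t ξ).sum

lemma SgR_nil (t : ℝ) (ξ : C3) : SgR Y [] t ξ = 0 := rfl

lemma SgR_cons (c : ℝ × Q4 J) (L : Fm ℝ J) (t : ℝ) (ξ : C3) :
    SgR Y (c :: L) t ξ = (c.1 : ℂ) * Sg Y c.2 t ξ + SgR Y L t ξ := by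
  simp [SgR]

lemma SgR_append (L L' : Fm ℝ J) (t : ℝ) (ξ : C3) :
    SgR Y (L ++ L') t ξ = SgR Y L t ξ + SgR Y L' t ξ := by
  simp [SgR]

variable {χ : ℂ → ℂ} (h : Cut χ) (f : 𝓢(ℂ, ℂ))

lemma integrable_Om : Integrable (Om f) := by
  have := integrable_sg f ((0, 0), (0, 0), (0, 0), (0, 0))
  refine this.congr (ae_of_all _ fun ξ => ?_)
  simp [sg, Pool.Agent.Helper54.JET.sy]

include h

lemma Sg_OO (q : Q4 J) (t : ℝ) (ξ : C3) : Sg Y q t ξ * OO χ f ξ =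
    (χ ξ.1 * Y.S q.1 t ξ.1) * (χ ξ.2.1 * Y.S q.2.1 t ξ.2.1) *
      starRingEnd ℂ (χ ξ.2.2 * Y.S q.2.2.1 t ξ.2.2) *
      starRingEnd ℂ (χ (x4 ξ) * Y.S q.2.2.2 t (x4 ξ)) * Om f ξ := by
  rw [OO_eq h, Sg, Om]
  simp only [map_mul]
  ring

lemma bdq (q : Q4 J) : ∃ C δ : ℝ, 0 ≤ C ∧ 0 < δ ∧ ∀ t, 0 < t → ∀ ξ,
    ‖Sg Y q t ξ * OO χ f ξ‖ ≤ C * Real.exp (-(δ * t)) * ‖Om f ξ‖ := by
  obtain ⟨C1, d1, hd1, h1⟩ := Y.bd χ h q.1
  obtain ⟨C2, d2, hd2, h2⟩ := Y.bd χ h q.2.1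
  obtain ⟨C3, d3, hd3, h3⟩ := Y.bd χ h q.2.2.1
  obtain ⟨C4, d4, hd4, h4⟩ := Y.bd χ h q.2.2.2
  have pos : ∀ {C d : ℝ} {j : J}, (∀ t, 0 < t → ∀ ξ, ‖χ ξ * Y.S j t ξ‖ ≤ C * Real.exp (-(d * t))) →
      0 ≤ C := by
    intro C d j hh
    have := (norm_nonneg _).trans (hh 1 one_pos 0)
    exact nonneg_of_mul_nonneg_left this (Real.exp_pos _)
  have p1 := pos h1
  have p2 := pos h2
  have p3 := pos h3
  have p4 := pos h4
  refine ⟨C1 * C2 * C3 * C4, d1, by positivity, hd1, fun t ht ξ => ?_⟩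
  have le1 : ∀ {C d : ℝ}, 0 ≤ C → 0 < d → C * Real.exp (-(d * t)) ≤ C := by
    intro C d hC hd
    refine mul_le_of_le_one_right hC (Real.exp_le_one_iff.2 ?_)
    have := mul_pos hd ht
    linarith
  rw [Sg_OO Y h, norm_mul, norm_mul, norm_mul, norm_mul, RCLike.norm_conj, RCLike.norm_conj]
  have k1 := h1 t ht ξ.1
  have k2 := (h2 t ht ξ.2.1).trans (le1 p2 hd2)
  have k3 := (h3 t ht ξ.2.2).trans (le1 p3 hd3)
  have k4 := (h4 t ht (x4 ξ)).trans (le1 p4 hd4)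
  have e : C1 * C2 * C3 * C4 * Real.exp (-(d1 * t)) = C1 * Real.exp (-(d1 * t)) * C2 * C3 * C4 := by
    ring
  rw [e]
  have pe : 0 ≤ C1 * Real.exp (-(d1 * t)) := mul_nonneg p1 (Real.exp_pos _).le
  refine mul_le_mul_of_nonneg_right ?_ (norm_nonneg _)
  exact mul_le_mul (mul_le_mul (mul_le_mul k1 k2 (norm_nonneg _) pe) k3 (norm_nonneg _)
    (mul_nonneg pe p2)) k4 (norm_nonneg _) (mul_nonneg (mul_nonneg pe p2) p3)

lemma integrable_SO (q : Q4 J) {t : ℝ} (ht : 0 < t) : Integrable fun ξ => Sg Y q t ξ * OO χ f ξ :=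
  integrable_sym h f (Y.smooth _ _ ht) (Y.smooth _ _ ht) (Y.smooth _ _ ht) (Y.smooth _ _ ht)

lemma integrable_SO0 (q : Q4 J) : Integrable fun ξ => Sg0 Y q ξ * OO χ f ξ :=
  integrable_sym h f (Y.smooth0 _) (Y.smooth0 _) (Y.smooth0 _) (Y.smooth0 _)

omit h in
/-- the quartic integral -/
def JJ (χ : ℂ → ℂ) (f : 𝓢(ℂ, ℂ)) (q : Q4 J) (t : ℝ) : ℂ := ∫ ξ, Sg Y q t ξ * OO χ f ξ

omit h in
/-- the quartic integral at height `0` -/
def JJ0 (χ : ℂ → ℂ) (f : 𝓢(ℂ, ℂ)) (q : Q4 J) : ℂ := ∫ ξ, Sg0 Y q ξ * OO χ f ξ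

lemma integrable_SgR (L : Fm ℝ J) {t : ℝ} (ht : 0 < t) :
    Integrable (fun ξ => SgR Y L t ξ * OO χ f ξ) ∧
    (L.map fun c => (c.1 : ℂ) * JJ Y χ f c.2 t).sum = ∫ ξ, SgR Y L t ξ * OO χ f ξ := by
  induction L with
  | nil => simp [SgR]
  | cons a L ih =>
    have e : (fun ξ : C3 => SgR Y (a :: L) t ξ * OO χ f ξ) =
        fun ξ => (a.1 : ℂ) * (Sg Y a.2 t ξ * OO χ f ξ) + SgR Y L t ξ * OO χ f ξ := by
      funext ξ
      rw [SgR_cons]
      ring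
    rw [e]
    have h1 := (integrable_SO Y h f a.2 ht).const_mul (a.1 : ℂ)
    refine ⟨h1.add ih.1, ?_⟩
    rw [integral_add h1 ih.1, List.map_cons, List.sum_cons, ih.2, integral_const_mul, JJ]

omit h in
lemma SgR_der (q : Q4 J) (t : ℝ) (ξ : C3) : SgR Y (der1 Y.D (1, q)) t ξ =
    ((Y.D q.1).map fun a => (a.1 : ℂ) * Y.S a.2 t ξ.1).sum * (Y.S q.2.1 t ξ.2.1 *
      starRingEnd ℂ (Y.S q.2.2.1 t ξ.2.2) * starRingEnd ℂ (Y.S q.2.2.2 t (x4 ξ))) +
    ((Y.D q.2.1).map fun a => (a.1 : ℂ) * Y.S a.2 t ξ.2.1).sum * (Y.S q.1 t ξ.1 *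
      starRingEnd ℂ (Y.S q.2.2.1 t ξ.2.2) * starRingEnd ℂ (Y.S q.2.2.2 t (x4 ξ))) +
    starRingEnd ℂ ((Y.D q.2.2.1).map fun a => (a.1 : ℂ) * Y.S a.2 t ξ.2.2).sum * (Y.S q.1 t ξ.1 *
      Y.S q.2.1 t ξ.2.1 * starRingEnd ℂ (Y.S q.2.2.2 t (x4 ξ))) +
    starRingEnd ℂ ((Y.D q.2.2.2).map fun a => (a.1 : ℂ) * Y.S a.2 t (x4 ξ)).sum * (Y.S q.1 t ξ.1 *
      Y.S q.2.1 t ξ.2.1 * starRingEnd ℂ (Y.S q.2.2.1 t ξ.2.2)) := by
  have k1 : ∀ (L : List (ℝ × J)) (g : J → ℂ) (r : ℂ), (L.map fun a => (a.1 : ℂ) * g a.2).sum * r =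
      (L.map fun a => (a.1 : ℂ) * (g a.2 * r)).sum := by
    intro L g r
    induction L with
    | nil => simp
    | cons a L ih =>
      simp only [List.map_cons, List.sum_cons, add_mul, ih]
      ring
  have k2 : ∀ (L : List (ℝ × J)) (g : J → ℂ), starRingEnd ℂ (L.map fun a => (a.1 : ℂ) * g a.2).sum =
      (L.map fun a => (a.1 : ℂ) * starRingEnd ℂ (g a.2)).sum := by
    intro L g
    induction L with
    | nil => simp
    | cons a L ih => simp only [List.map_cons, List.sum_cons, map_add, map_mul, ih, Complex.conj_ofReal]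
  rw [der1, SgR_append, SgR_append, SgR_append]
  rw [k2 _ (fun j => Y.S j t ξ.2.2), k2 _ (fun j => Y.S j t (x4 ξ)),
    k1 _ (fun j => Y.S j t ξ.1), k1 _ (fun j => Y.S j t ξ.2.1),
    k1 _ (fun j => starRingEnd ℂ (Y.S j t ξ.2.2)), k1 _ (fun j => starRingEnd ℂ (Y.S j t (x4 ξ)))]
  have cg : ∀ (L : List (ℝ × J)) (u v : ℝ × J → ℂ), (∀ a, u a = v a) →
      (L.map u).sum = (L.map v).sum := by
    intro L u v huv
    rw [List.map_congr_left fun a _ => huv a]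
  unfold SgR
  simp only [List.map_map, Function.comp_def]
  congr 1
  · congr 1
    · congr 1
      · exact cg _ _ _ fun a => by simp only [Sg, one_mul]; ring
      · exact cg _ _ _ fun a => by simp only [Sg, one_mul]; ring
    · exact cg _ _ _ fun a => by simp only [Sg, one_mul]; ring
  · exact cg _ _ _ fun a => by simp only [Sg, one_mul]; ring

lemma hasDerivAt_Sg (q : Q4 J) {t : ℝ} (ht : 0 < t) (ξ : C3) :
    HasDerivAt (fun t => Sg Y q t ξ * OO χ f ξ)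
      (SgR Y (der1 Y.D (1, q)) t ξ * OO χ f ξ / (t : ℂ)) t := by
  by_cases hO : OO χ f ξ = 0
  · simp only [hO, mul_zero, zero_div]
    exact hasDerivAt_const t 0
  obtain ⟨h1, h2, h3, h4⟩ := OO_ne h f hO
  have cjd : ∀ {g : ℝ → ℂ} {g' : ℂ}, HasDerivAt g g' t →
      HasDerivAt (fun t => starRingEnd ℂ (g t)) (starRingEnd ℂ g') t := by
    intro g g' hg
    exact Complex.conjCLE.toContinuousLinearMap.hasFDerivAt.comp_hasDerivAt t hg
  have d1 := Y.der q.1 ξ.1 (cut_ne h h1) t ht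
  have d2 := Y.der q.2.1 ξ.2.1 (cut_ne h h2) t ht
  have d3 := cjd (Y.der q.2.2.1 ξ.2.2 (cut_ne h h3) t ht)
  have d4 := cjd (Y.der q.2.2.2 (x4 ξ) (cut_ne h h4) t ht)
  have d := (((d1.mul d2).mul d3).mul d4).mul_const (OO χ f ξ)
  refine d.congr_deriv ?_
  rw [SgR_der]
  simp only [map_div₀, Complex.conj_ofReal]
  simp only [Pi.mul_apply]
  ring

lemma hasDerivAt_JJ (q : Q4 J) {t : ℝ} (ht : 0 < t) :
    HasDerivAt (JJ Y χ f q) ((((der1 Y.D (1, q)).map fun c => (c.1 : ℂ) * JJ Y χ f c.2 t).sum) / (t : ℂ)) t := by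
  have hI := integrable_SgR Y h f (der1 Y.D (1, q)) ht
  -- bound of the symbol of a form
  have hB : ∀ L : Fm ℝ J, ∃ C : ℝ, ∀ s, 0 < s → ∀ ξ, ‖SgR Y L s ξ * OO χ f ξ‖ ≤ C * ‖Om f ξ‖ := by
    intro L
    induction L with
    | nil => exact ⟨0, fun s _ ξ => by simp [SgR]⟩
    | cons a L ih =>
      obtain ⟨C, hC⟩ := ih
      obtain ⟨C', δ, hC0, hδ, hC'⟩ := bdq Y h f a.2
      refine ⟨|a.1| * C' + C, fun s hs ξ => ?_⟩
      have e : SgR Y (a :: L) s ξ * OO χ f ξ = (a.1 : ℂ) * (Sg Y a.2 s ξ * OO χ f ξ) +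
          SgR Y L s ξ * OO χ f ξ := by
        rw [SgR_cons]
        ring
      rw [e, add_mul]
      refine (norm_add_le _ _).trans (add_le_add ?_ (hC s hs ξ))
      rw [norm_mul, Complex.norm_real, Real.norm_eq_abs, mul_assoc]
      refine mul_le_mul_of_nonneg_left ((hC' s hs ξ).trans ?_) (abs_nonneg _)
      refine mul_le_mul_of_nonneg_right ?_ (norm_nonneg _)
      refine mul_le_of_le_one_right hC0 (Real.exp_le_one_iff.2 ?_)
      have := mul_pos hδ hs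
      linarith
  obtain ⟨C, hC⟩ := hB (der1 Y.D (1, q))
  have ht2 : 0 < t / 2 := by linarith
  have hC0 : ∀ ξ, 0 ≤ C * ‖Om f ξ‖ := fun ξ => (norm_nonneg _).trans (hC 1 one_pos ξ)
  have key := hasDerivAt_integral_of_dominated_loc_of_deriv_le (𝕜 := ℝ) (μ := (volume : Measure C3))
    (F := fun s ξ => Sg Y q s ξ * OO χ f ξ)
    (F' := fun s ξ => SgR Y (der1 Y.D (1, q)) s ξ * OO χ f ξ / (s : ℂ))
    (x₀ := t) (s := Ioi (t / 2)) (bound := fun ξ => (C * ‖Om f ξ‖) * (t / 2)⁻¹)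
    (Ioi_mem_nhds (by linarith))
    (by
      filter_upwards [Ioi_mem_nhds ht] with s hs
      exact (integrable_SO Y h f q hs).aestronglyMeasurable)
    (integrable_SO Y h f q ht)
    (by
      have := hI.1.aestronglyMeasurable.mul_const ((t : ℂ)⁻¹)
      simpa only [div_eq_mul_inv] using this)
    (ae_of_all _ fun ξ s hs => by
      have hs0 : 0 < s := lt_trans ht2 hs
      rw [norm_div, Complex.norm_real, Real.norm_eq_abs, abs_of_pos hs0, div_eq_mul_inv]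
      refine mul_le_mul (hC s hs0 ξ) ?_ (by positivity) (hC0 ξ)
      exact inv_anti₀ ht2 (le_of_lt hs))
    (((integrable_Om f).norm.const_mul C).mul_const _)
    (ae_of_all _ fun ξ s hs => hasDerivAt_Sg Y h f q (lt_trans ht2 hs) ξ)
  have h4 := key.2
  have e : ∫ ξ, SgR Y (der1 Y.D (1, q)) t ξ * OO χ f ξ / (t : ℂ) =
      (((der1 Y.D (1, q)).map fun c => (c.1 : ℂ) * JJ Y χ f c.2 t).sum) / (t : ℂ) := by
    rw [hI.2, integral_div]
  rw [e] at h4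
  exact h4

lemma JJ_tendsto_zero (q : Q4 J) : Tendsto (JJ Y χ f q) (𝓝[>] 0) (𝓝 (JJ0 Y χ f q)) := by
  obtain ⟨C, δ, hC0, hδ, hC⟩ := bdq Y h f q
  refine tendsto_integral_filter_of_dominated_convergence (fun ξ => C * ‖Om f ξ‖) ?_ ?_
    ((integrable_Om f).norm.const_mul C) (ae_of_all _ fun ξ => ?_)
  · filter_upwards [self_mem_nhdsWithin] with t ht
    exact (integrable_SO Y h f q ht).aestronglyMeasurable
  · filter_upwards [self_mem_nhdsWithin] with t ht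
    refine ae_of_all _ fun ξ => (hC t ht ξ).trans ?_
    refine mul_le_mul_of_nonneg_right ?_ (norm_nonneg _)
    refine mul_le_of_le_one_right hC0 (Real.exp_le_one_iff.2 ?_)
    have := mul_pos hδ (mem_Ioi.1 ht)
    linarith
  · by_cases hO : OO χ f ξ = 0
    · simp only [hO, mul_zero]
      exact tendsto_const_nhds
    obtain ⟨h1, h2, h3, h4⟩ := OO_ne h f hO
    have cjt : ∀ {g : ℝ → ℂ} {g' : ℂ}, Tendsto g (𝓝[>] 0) (𝓝 g') →
        Tendsto (fun t => starRingEnd ℂ (g t)) (𝓝[>] 0) (𝓝 (starRingEnd ℂ g')) := by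
      intro g g' hg
      exact (Complex.continuous_conj.tendsto g').comp hg
    have l1 := Y.lim q.1 ξ.1 (cut_ne h h1)
    have l2 := Y.lim q.2.1 ξ.2.1 (cut_ne h h2)
    have l3 := cjt (Y.lim q.2.2.1 ξ.2.2 (cut_ne h h3))
    have l4 := cjt (Y.lim q.2.2.2 (x4 ξ) (cut_ne h h4))
    exact (((l1.mul l2).mul l3).mul l4).mul_const _

lemma JJ_tendsto_top (q : Q4 J) : Tendsto (JJ Y χ f q) atTop (𝓝 0) := by
  obtain ⟨C, δ, hC0, hδ, hC⟩ := bdq Y h f q
  rw [tendsto_zero_iff_norm_tendsto_zero]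
  have h1 : Tendsto (fun t : ℝ => (C * ∫ ξ, ‖Om f ξ‖) * Real.exp (-(δ * t))) atTop (𝓝 0) := by
    have h2 : Tendsto (fun t : ℝ => Real.exp (-(δ * t))) atTop (𝓝 0) :=
      Real.tendsto_exp_neg_atTop_nhds_zero.comp (tendsto_id.const_mul_atTop hδ)
    have h3 := h2.const_mul (C * ∫ ξ, ‖Om f ξ‖)
    simpa using h3
  refine squeeze_zero' (Eventually.of_forall fun y => norm_nonneg _) ?_ h1
  filter_upwards [eventually_gt_atTop 0] with t ht
  refine (norm_integral_le_integral_norm _).trans ?_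
  have e : (C * ∫ ξ, ‖Om f ξ‖) * Real.exp (-(δ * t)) = ∫ ξ, C * Real.exp (-(δ * t)) * ‖Om f ξ‖ := by
    rw [integral_const_mul]
    ring
  rw [e]
  exact integral_mono (integrable_SO Y h f q ht).norm ((integrable_Om f).norm.const_mul _)
    fun ξ => hC t ht ξ

/-! ### integrated forms -/

omit h in
/-- integral of a form at height `t` -/
def IL (χ : ℂ → ℂ) (f : 𝓢(ℂ, ℂ)) (L : Fm ℝ J) (t : ℝ) : ℝ :=
  (L.map fun c => c.1 * (JJ Y χ f c.2 t).re).sum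

omit h in
/-- integral of a form at height `0` -/
def IL0 (χ : ℂ → ℂ) (f : 𝓢(ℂ, ℂ)) (L : Fm ℝ J) : ℝ :=
  (L.map fun c => c.1 * (JJ0 Y χ f c.2).re).sum

omit h in
lemma IL_cons (c : ℝ × Q4 J) (L : Fm ℝ J) (t : ℝ) :
    IL Y χ f (c :: L) t = c.1 * (JJ Y χ f c.2 t).re + IL Y χ f L t := by
  simp [IL]

omit h in
lemma IL0_cons (c : ℝ × Q4 J) (L : Fm ℝ J) :
    IL0 Y χ f (c :: L) = c.1 * (JJ0 Y χ f c.2).re + IL0 Y χ f L := by
  simp [IL0]

omit h in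
lemma IL_append (L L' : Fm ℝ J) (t : ℝ) :
    IL Y χ f (L ++ L') t = IL Y χ f L t + IL Y χ f L' t := by
  simp [IL]

omit h in
lemma IL_sc (a : ℝ) (L : Fm ℝ J) (t : ℝ) : IL Y χ f (sc a L) t = a * IL Y χ f L t := by
  induction L with
  | nil => simp [sc, IL]
  | cons c L ih =>
    have : sc a (c :: L) = (a * c.1, c.2) :: sc a L := rfl
    rw [this, IL_cons, IL_cons, ih]
    ring

omit h in
lemma IL_re (L : Fm ℝ J) (t : ℝ) :
    IL Y χ f L t = ((L.map fun c => (c.1 : ℂ) * JJ Y χ f c.2 t).sum).re := by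
  induction L with
  | nil => simp [IL]
  | cons c L ih =>
    rw [IL_cons, ih, List.map_cons, List.sum_cons, Complex.add_re, Complex.re_ofReal_mul]

omit h in
lemma IL_der1 (c : ℝ × Q4 J) (t : ℝ) :
    IL Y χ f (der1 Y.D c) t = c.1 * IL Y χ f (der1 Y.D (1, c.2)) t := by
  have e : der1 Y.D c = sc c.1 (der1 Y.D (1, c.2)) := by
    simp only [der1, sc, List.map_append, List.map_map, Function.comp_def, one_mul]
  rw [e, IL_sc]

lemma IL_apZ {t : ℝ} (ht : 0 < t) (L : Fm ℝ J) : IL Y χ f (apZ Y.ur Y.ul L) t = 0 := by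
  induction L with
  | nil => rfl
  | cons c L ih =>
    have e0 : apZ Y.ur Y.ul (c :: L) = dz Y.ur Y.ul c ++ apZ Y.ur Y.ul L := rfl
    rw [e0, IL_append, ih, add_zero, IL_re, (integrable_SgR Y h f _ ht).2]
    have e1 : ∀ ξ, SgR Y (dz Y.ur Y.ul c) t ξ * OO χ f ξ = 0 := by
      intro ξ
      by_cases hO : OO χ f ξ = 0
      · rw [hO, mul_zero]
      obtain ⟨h1, h2, h3, h4⟩ := OO_ne h f hO
      have e2 : SgR Y (dz Y.ur Y.ul c) t ξ = 0 := by
        simp only [SgR, dz, List.map_cons, List.map_nil, List.sum_cons, List.sum_nil, Sg,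
          Y.hur _ t _ ht (cut_ne h h1), Y.hur _ t _ ht (cut_ne h h2), Y.hul _ t _ ht (cut_ne h h3),
          Y.hul _ t _ ht (cut_ne h h4)]
        simp only [x4, map_add, map_sub]
        push_cast
        ring
      rw [e2, zero_mul]
    simp only [e1, integral_zero, Complex.zero_re]

lemma hasDerivAt_IL {t : ℝ} (ht : 0 < t) (L : Fm ℝ J) :
    HasDerivAt (IL Y χ f L) (IL Y χ f (apD Y.D L) t / t) t := by
  induction L with
  | nil =>
    have : IL Y χ f [] = fun _ => (0 : ℝ) := rfl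
    rw [this]
    simpa [apD, IL] using hasDerivAt_const t (0 : ℝ)
  | cons c L ih =>
    have e1 : IL Y χ f (c :: L) = fun t => c.1 * (JJ Y χ f c.2 t).re + IL Y χ f L t := by
      funext t
      exact IL_cons Y f c L t
    have e2 : apD Y.D (c :: L) = der1 Y.D c ++ apD Y.D L := rfl
    rw [e1, e2, IL_append, add_div]
    have h1 := (Complex.reCLM.hasFDerivAt.comp_hasDerivAt t (hasDerivAt_JJ Y h f c.2 ht)).const_mul
      c.1
    refine (h1.add ih).congr_deriv ?_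
    congr 1
    rw [IL_der1, IL_re, Complex.reCLM_apply, Complex.div_ofReal_re]
    ring

lemma IL_tendsto_zero (L : Fm ℝ J) : Tendsto (IL Y χ f L) (𝓝[>] 0) (𝓝 (IL0 Y χ f L)) := by
  induction L with
  | nil => exact tendsto_const_nhds
  | cons c L ih =>
    have e1 : IL Y χ f (c :: L) = fun t => c.1 * (JJ Y χ f c.2 t).re + IL Y χ f L t := by
      funext t
      exact IL_cons Y f c L t
    rw [e1, IL0_cons]
    exact (((Complex.continuous_re.tendsto _).comp (JJ_tendsto_zero Y h f c.2)).const_mul c.1).add ih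

lemma IL_tendsto_top (L : Fm ℝ J) : Tendsto (IL Y χ f L) atTop (𝓝 0) := by
  induction L with
  | nil => exact tendsto_const_nhds
  | cons c L ih =>
    have e1 : IL Y χ f (c :: L) = fun t => c.1 * (JJ Y χ f c.2 t).re + IL Y χ f L t := by
      funext t
      exact IL_cons Y f c L t
    rw [e1]
    have := (((Complex.continuous_re.tendsto _).comp (JJ_tendsto_top Y h f c.2)).const_mul c.1).add ih
    simpa using this

omit h in
/-- the jet of the extension -/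
def Xt (χ : ℂ → ℂ) (f : 𝓢(ℂ, ℂ)) (t : ℝ) (z : ℂ) : J → ℂ := fun j => Sf χ (Y.S j t) f z

omit h in
/-- the jet at height `0` -/
def X0 (χ : ℂ → ℂ) (f : 𝓢(ℂ, ℂ)) (z : ℂ) : J → ℂ := fun j => Sf χ (Y.S0 j) f z

lemma int_ev {t : ℝ} (ht : 0 < t) (L : Fm ℝ J) :
    Integrable (fun z => ev L (Xt Y χ f t z)) ∧ ∫ z, ev L (Xt Y χ f t z) = IL Y χ f L t := by
  induction L with
  | nil => simp [ev, IL]
  | cons c L ih =>
    simp only [ev_cons]
    have h0 : Integrable fun z => mono c.2 (Xt Y χ f t z) := integrable_four _ _ _ _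
    have h1 : Integrable fun z => c.1 * (mono c.2 (Xt Y χ f t z)).re := h0.re.const_mul _
    refine ⟨h1.add ih.1, ?_⟩
    rw [integral_add h1 ih.1, ih.2, integral_const_mul, IL_cons]
    congr 2
    have h2 := integral_re h0
    have h3 : ∫ z, mono c.2 (Xt Y χ f t z) = JJ Y χ f c.2 t :=
      phys h f (Y.smooth _ _ ht) (Y.smooth _ _ ht) (Y.smooth _ _ ht) (Y.smooth _ _ ht)
    rw [← h3]
    exact h2

lemma int_ev0 (L : Fm ℝ J) :
    Integrable (fun z => ev L (X0 Y χ f z)) ∧ ∫ z, ev L (X0 Y χ f z) = IL0 Y χ f L := by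
  induction L with
  | nil => simp [ev, IL0]
  | cons c L ih =>
    simp only [ev_cons]
    have h0 : Integrable fun z => mono c.2 (X0 Y χ f z) := integrable_four _ _ _ _
    have h1 : Integrable fun z => c.1 * (mono c.2 (X0 Y χ f z)).re := h0.re.const_mul _
    refine ⟨h1.add ih.1, ?_⟩
    rw [integral_add h1 ih.1, ih.2, integral_const_mul, IL0_cons]
    congr 2
    have h2 := integral_re h0
    have h3 : ∫ z, mono c.2 (X0 Y χ f z) = JJ0 Y χ f c.2 :=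
      phys h f (Y.smooth0 _) (Y.smooth0 _) (Y.smooth0 _) (Y.smooth0 _)
    rw [← h3]
    exact h2

/-- positivity at height `0` -/
lemma IL0_nonneg (U M : Fm ℝ J) (hR : ∀ X : J → ℂ, 0 ≤ ev (body Y.D Y.ur Y.ul U M) X) :
    0 ≤ IL0 Y χ f U := by
  have hneg : ∀ t, 0 < t → IL Y χ f (apD Y.D U) t / t ≤ 0 := by
    intro t ht
    have h1 := int_ev Y h f ht (body Y.D Y.ur Y.ul U M)
    have h2 : 0 ≤ IL Y χ f (body Y.D Y.ur Y.ul U M) t := by
      rw [← h1.2]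
      exact integral_nonneg fun z => hR _
    rw [body, IL_append, IL_sc, IL_apZ Y h f ht] at h2
    have h3 : IL Y χ f (apD Y.D U) t ≤ 0 := by linarith
    exact div_nonpos_of_nonpos_of_nonneg h3 ht.le
  have hanti : AntitoneOn (IL Y χ f U) (Ioi 0) := by
    refine antitoneOn_of_deriv_nonpos (convex_Ioi 0) ?_ ?_ ?_
    · intro t ht
      exact (hasDerivAt_IL Y h f ht U).continuousAt.continuousWithinAt
    · intro t ht
      rw [interior_Ioi] at ht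
      exact (hasDerivAt_IL Y h f ht U).differentiableAt.differentiableWithinAt
    · intro t ht
      rw [interior_Ioi] at ht
      rw [(hasDerivAt_IL Y h f ht U).deriv]
      exact hneg t ht
  have hpos : ∀ t, 0 < t → 0 ≤ IL Y χ f U t := by
    intro t ht
    refine le_of_tendsto (IL_tendsto_top Y h f U) ?_
    filter_upwards [eventually_ge_atTop t] with s hs
    exact hanti ht (mem_Ioi.2 (lt_of_lt_of_le ht hs)) hs
  refine ge_of_tendsto (IL_tendsto_zero Y h f U) ?_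
  filter_upwards [self_mem_nhdsWithin] with t ht
  exact hpos t ht

/-- FRAME THEOREM for an abstract system of jets; `Z` is the set of the jets which vanish at
height `0` -/
theorem frame (Z : J → Prop) (hZ : ∀ j, Z j → ∀ ξ, ξ ≠ 0 → Y.S0 j ξ = 0) (a b : J) (U M : Fm ℝ J)
    (A B : ℝ) (hR : ∀ X : J → ℂ, 0 ≤ ev (body Y.D Y.ur Y.ul U M) X)
    (hM : ∀ X : J → ℂ, (∀ j, Z j → X j = 0) → ev U X + B * ‖X b‖ ^ 4 ≤ A * ‖X a‖ ^ 4) :
    B * ∫ z, ‖Sf χ (Y.S0 b) f z‖ ^ 4 ≤ A * ∫ z, ‖Sf χ (Y.S0 a) f z‖ ^ 4 := by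
  have h0 := IL0_nonneg Y h f U M hR
  have h1 := int_ev0 Y h f U
  have hz : ∀ z j, Z j → X0 Y χ f z j = 0 := by
    intro z j hj
    have e : (fun ξ => χ ξ * Y.S0 j ξ) = fun _ => 0 := by
      funext ξ
      by_cases hχ : χ ξ = 0
      · rw [hχ, zero_mul]
      · rw [hZ j hj ξ (cut_ne h hχ), mul_zero]
    have e2 : Sf χ (Y.S0 j) f = 0 := by
      rw [Sf, e]
      have h3 : (fun _ : ℂ => (0 : ℂ)) = (0 : ℂ) • (fun _ : ℂ => (1 : ℂ)) := by
        funext ξ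
        simp
      rw [h3, MM_smul (Function.HasTemperateGrowth.const 1)]
      simp
    show Sf χ (Y.S0 j) f z = 0
    rw [e2]
    rfl
  have h2 : ∫ z, (ev U (X0 Y χ f z) + B * ‖Sf χ (Y.S0 b) f z‖ ^ 4) ≤
      ∫ z, A * ‖Sf χ (Y.S0 a) f z‖ ^ 4 :=
    integral_mono (h1.1.add ((integrable_quart _).const_mul B)) ((integrable_quart _).const_mul A)
      fun z => hM (X0 Y χ f z) (hz z)
  rw [integral_add h1.1 ((integrable_quart _).const_mul B), h1.2, integral_const_mul,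
    integral_const_mul] at h2
  linarith

omit h f in
/-- FRAME THEOREM for an abstract system of jets, frozen form: `a` is the function itself, `b` is
`T^n` of it -/
theorem frameT (n : ℕ) (Z : J → Prop) (hZ : ∀ j, Z j → ∀ ξ, ξ ≠ 0 → Y.S0 j ξ = 0) (a b : J)
    (ha : ∀ ξ, ξ ≠ 0 → Y.S0 a ξ = 1)
    (hb : ∀ ξ, ξ ≠ 0 → Y.S0 b ξ = Pool.Agent.Helper54.PF.un ξ ^ (2 * (n : ℤ))) (U M : Fm ℝ J)
    (A B C : ℝ) (hR : ∀ X : J → ℂ, 0 ≤ ev (body Y.D Y.ur Y.ul U M) X)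
    (hM : ∀ X : J → ℂ, (∀ j, Z j → X j = 0) → ev U X + B * ‖X b‖ ^ 4 ≤ A * ‖X a‖ ^ 4)
    (hB : 0 < B) (hC : 0 ≤ C) (hA : A ≤ B * C ^ 4) (f : 𝓢(ℂ, ℂ)) :
    eLpNorm
        (fun z : ℂ => ∫ ξ : ℂ,
          Complex.exp (2 * (Real.pi : ℂ) * Complex.I * ((z.re * ξ.re + z.im * ξ.im : ℝ) : ℂ)) *
            ((starRingEnd ℂ ξ / ξ) ^ n *
              ∫ w : ℂ, Complex.exp (-(2 * (Real.pi : ℂ) * Complex.I *
                ((w.re * ξ.re + w.im * ξ.im : ℝ) : ℂ))) * f w))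
        (ENNReal.ofReal 4) MeasureTheory.volume
      ≤ ENNReal.ofReal C *
        MeasureTheory.eLpNorm (fun z : ℂ => f z) (ENNReal.ofReal 4) MeasureTheory.volume := by
  refine toFrozen n 4 (by norm_num) C (fun χ h g => ?_) f
  have key := frame Y h g Z hZ a b U M A B hR hM
  have same : ∀ (g1 g2 : ℂ → ℂ), (∀ ξ, ξ ≠ 0 → g1 ξ = g2 ξ) → Sf χ g1 g = Sf χ g2 g := by
    intro g1 g2 h12
    rw [Sf, Sf]
    congr 2
    funext ξ
    by_cases hχ : χ ξ = 0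
    · rw [hχ, zero_mul, zero_mul]
    · rw [h12 ξ (cut_ne h hχ)]
  have e1 : Sf χ (Y.S0 a) g = WW χ g 0 (0, 0) := by
    rw [WW]
    refine same _ _ fun ξ hξ => ?_
    rw [ha ξ hξ]
    simp [Pool.Agent.Helper54.PF.sy, Pool.Agent.Helper54.PF.sW]
  have e2 : Sf χ (Y.S0 b) g = WW χ g 0 (0, 2 * (n : ℤ)) := by
    rw [WW]
    refine same _ _ fun ξ hξ => ?_
    rw [hb ξ hξ]
    simp [Pool.Agent.Helper54.PF.sy, Pool.Agent.Helper54.PF.sW]
  rw [e1, e2] at key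
  exact four_bound _ _ A B C hB hC hA key

end Pool.Agent.Helper54.BF
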